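import Mathlib
import Pool.Agent.Lib.helper6.GeoSat
set_option autoImplicit false
namespace Pool.Agent.Results.MP_1038e0_co.Hull
open Pool.Agent.Lib.helper6.GeoSat

/-- A straight-line drawing of `K_n`: distinct points, no three collinear. -/
def GenPos {n : ℕ} (P : Fin n → ℝ × ℝ) : Prop :=
  Function.Injective P ∧ ∀ a b c, a ≠ b → a ≠ c → b ≠ c → ¬ Collinear ℝ {P a, P b, P c}
/-- The edges `xy` and `uv` (four distinct vertices) cross: their segments meet. -/
def Cross {n : ℕ} (P : Fin n → ℝ × ℝ) (x y u v : Fin n) : Prop :=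
  x ≠ y ∧ x ≠ u ∧ x ≠ v ∧ y ≠ u ∧ y ≠ v ∧ u ≠ v ∧
    (segment ℝ (P x) (P y) ∩ segment ℝ (P u) (P v)).Nonempty
/-- There is a vertex-injective geometric homomorphism. -/
def GLe {n : ℕ} (P Q : Fin n → ℝ × ℝ) : Prop :=
  ∃ f : Fin n → Fin n, Function.Injective f ∧
    ∀ x y u v, Cross P x y u v → Cross Q (f x) (f y) (f u) (f v)
/-- Geometric isomorphism. -/
def GIso {n : ℕ} (P Q : Fin n → ℝ × ℝ) : Prop :=
  ∃ f : Fin n → Fin n, Function.Bijective f ∧
    ∀ x y u v, Cross P x y u v ↔ Cross Q (f x) (f y) (f u) (f v)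
/-- Number of vertices that are vertices of the convex hull. -/
noncomputable def hullNum {n : ℕ} (P : Fin n → ℝ × ℝ) : ℕ :=
  {i | P i ∉ convexHull ℝ (P '' {j | j ≠ i})}.ncard

section
variable {V : Type} {S T : V → V → V → ℝ}
theorem c2 (h : Chi S) (a b c : V) : S a b c = S c a b := (h.cyc c a b).symm
theorem ne3 (h : Chi S) {a b c : V} (p : 0 < S a b c) : a ≠ b ∧ a ≠ c ∧ b ≠ c := by
  refine ⟨?_, ?_, ?_⟩ <;> rintro rfl
  · linarith [h.anti a a c]
  · linarith [h.anti a a b, c2 h a b a]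
  · linarith [h.anti b b a, h.cyc a b b]
theorem flip (h : Chi S) {a b c : V} (n : a ≠ b ∧ a ≠ c ∧ b ≠ c) (p : ¬ 0 < S a b c) : 0 < S b a c := by
  have := h.nd a b c n.1 n.2.1 n.2.2
  have h2 := h.anti a b c
  rcases lt_trichotomy (S a b c) 0 with q | q | q
  · linarith
  · exact absurd q this
  · exact absurd q p
theorem tri (h : Chi S) {p q r : V} (h0 : 0 < S p q r) :
    ∃ x y z, Hull S x ∧ Hull S y ∧ Hull S z ∧ 0 < S x y z := by
  obtain ⟨x, hx, h1⟩ := h.mx _ _ _ h0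
  obtain ⟨y, hy, h2⟩ := h.mx q x p (by rwa [← h.cyc])
  obtain ⟨z, hz, h3⟩ := h.mx x y q (by rwa [← h.cyc])
  exact ⟨x, y, z, hx, hy, hz, h3⟩

theorem coreB (hS : Chi S) (hT : Chi T) (H : HH S T) (e : ∀ v, Hull S v ↔ Hull T v) (a0 a1 a2 : V)
    (h0 : Hull S a0) (h1 : Hull S a1) (h2 : Hull S a2) (s : 0 < S a0 a1 a2) (t : 0 < T a0 a1 a2) :
    ∀ p q r, 0 < T p q r → 0 < S p q r := by
  have b1 : ∀ a b c, Hull S a → Hull S b → Hull S c → 0 < T a b c → 0 < S a b c :=
    fun a b c ha hb hc h => by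
      by_contra k
      exact LB1 hS hT H a0 a1 a2 a b c a0 h0 h1 h2 ha hb hc s t h k
  have b2 : B2 S T := fun a b c ha hb h => by
    by_contra k
    obtain ⟨d, hd, h3⟩ := hT.mx _ _ _ h
    exact LB2 hS hT H a b c d a a a ha hb h h3 (b1 _ _ _ ha hb ((e d).2 hd) h3) k
  have b3 : B3 S T := fun a p q ha h => by
    by_contra k
    by_cases hp : Hull S p
    · exact k (by rw [c2 hS]; exact b2 a p q ha hp (by rwa [← c2 hT]))
    · rw [e] at hp
      have : ∃ x, 0 < T q p x := by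
        by_contra m
        push Not at m
        refine hp fun x y z ⟨q1, q2, q3⟩ => ?_
        exact LB3a hS hT H p q x y z p p (ne3 hT h).1 (by rwa [← c2 hT]) (by rwa [← c2 hT])
          (by rwa [← c2 hT]) (by rw [← hT.cyc]; exact not_lt.2 (m x)) (by rw [← hT.cyc]; exact not_lt.2 (m y))
          (by rw [← hT.cyc]; exact not_lt.2 (m z))
      obtain ⟨x, hx⟩ := this
      obtain ⟨d, hd, h3⟩ := hT.mx _ _ _ hx
      exact LB3 hS hT H a0 a1 a2 p q a d b2 h0 h1 h2 ha ((e d).2 hd) s h k (by rwa [← hT.cyc])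
  intro p q r h
  by_contra k
  have k2 := flip hS (ne3 hT h) k
  obtain ⟨d1, hd1, q1⟩ := hS.mx _ _ _ k2
  obtain ⟨d2, hd2, q2⟩ := hS.mx r q p (by rwa [← c2 hS])
  exact LB4 hS hT H p q r d1 d2 p p b3 hd1 hd2 h k (by rwa [← hS.cyc]) (by rwa [← hS.cyc])

theorem coreC1 (hS : Chi S) (hT : Chi T) (H : HH S T) (x y z : V) (t : 0 < T x y z)
    (k1 : ∀ p, ¬ 0 < T x p y) (k2 : ∀ p, ¬ 0 < T y p z) (k3 : ∀ p, ¬ 0 < T x z p) : C1 S T x := by
  intro p q r ⟨q1, q2, q3, q4⟩
  by_contra k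
  exact LC1 hS hT H x y z p q r x t (k1 _) (k2 _) (k3 _) (k1 _) (k2 _) (k3 _) (k1 _) (k2 _) (k3 _) q1
    (by rwa [← hT.cyc]) (by rwa [← c2 hT]) (by rwa [← c2 hT]) k

theorem core [Finite V] {T' : V → V → V → ℝ} (hS : Chi S) (hT : Chi T) (hT' : Chi T')
    (e' : ∀ a b c, T' a b c = T b a c) (H : HH S T)
    (hc : {v | Hull T v}.ncard ≤ {v | Hull S v}.ncard) : HH T S := by
  intro p q r w hX
  by_cases h4 : 4 ≤ {v | Hull S v}.ncard
  · have sub : {v | Hull S v} ⊆ {v | Hull T v} := by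
      intro v hv x y z ⟨q1, q2, q3⟩
      have : 2 < ({v | Hull S v} \ {v}).ncard := by
        rw [Set.ncard_diff_singleton_of_mem hv]; omega
      obtain ⟨a, b, c, ha, hb, hc, n1, n2, n3⟩ := (Set.two_lt_ncard_iff (Set.toFinite _)).1 this
      exact LA hS hT H v a b c x y z hv ha.1 hb.1 hc.1 (fun h => ha.2 h.symm) (fun h => hb.2 h.symm)
        (fun h => hc.2 h.symm) n1 n2 n3 (by rwa [← c2 hT]) (by rwa [← c2 hT]) (by rwa [← c2 hT])
    have eq := Set.eq_of_subset_of_ncard_le sub hc (Set.toFinite _)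
    have e : ∀ v, Hull S v ↔ Hull T v := fun v => Set.ext_iff.1 eq v
    obtain ⟨x, y, z, hx, hy, hz, t⟩ := tri hT hX.1
    rw [← e] at hx hy hz
    by_cases s : 0 < S x y z
    · have B := coreB hS hT H e x y z hx hy hz s t
      exact Or.inl ⟨B _ _ _ hX.1, B _ _ _ hX.2.1, B _ _ _ hX.2.2.1, B _ _ _ hX.2.2.2⟩
    · have H' : HH S T' := fun a b c d h => by
        simp only [Cr, X, e']
        rcases H a b c d h with ⟨u1, u2, u3, u4⟩ | ⟨u1, u2, u3, u4⟩
        · exact Or.inr ⟨u2, u1, u3, u4⟩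
        · exact Or.inl ⟨u2, u1, u3, u4⟩
      have e2 : ∀ v, Hull S v ↔ Hull T' v := fun v => by
        rw [e]
        simp only [Hull, e']
        exact ⟨fun h a b c ⟨u1, u2, u3⟩ => h b a c ⟨u1, u3, u2⟩, fun h a b c ⟨u1, u2, u3⟩ => h b a c ⟨u1, u3, u2⟩⟩
      have B := coreB hS hT' H' e2 y x z hy hx hz (flip hS (ne3 hT t) s) (by rwa [e'])
      obtain ⟨u1, u2, u3, u4⟩ := hX
      exact Or.inr ⟨B _ _ _ (by rwa [e']), B _ _ _ (by rwa [e']), B _ _ _ (by rwa [e']), B _ _ _ (by rwa [e'])⟩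
  · obtain ⟨x, y, z, hx, hy, hz, t⟩ := tri hT hX.1
    obtain ⟨n1, n2, n3⟩ := ne3 hT t
    have eq : ({x, y, z} : Set V) = {v | Hull T v} := by
      refine Set.eq_of_subset_of_ncard_le ?_ ?_ (Set.toFinite _)
      · rintro v (rfl | rfl | rfl) <;> assumption
      · rw [Set.ncard_eq_three.2 ⟨x, y, z, n1, n2, n3, rfl⟩]; omega
    have mem : ∀ d, Hull T d → d = x ∨ d = y ∨ d = z := fun d hd => by
      have : d ∈ ({x, y, z} : Set V) := eq ▸ hd
      exact this
    have key : ∀ a b c, 0 < T a b c → (∀ d, Hull T d → d = a ∨ d = b ∨ d = c) → ∀ p, ¬ 0 < T b a p := by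
      intro a b c t m p h
      obtain ⟨d, hd, h3⟩ := hT.mx _ _ _ h
      obtain ⟨-, m2, m3⟩ := ne3 hT h3
      rcases m d hd with rfl | rfl | rfl
      · exact m3 rfl
      · exact m2 rfl
      · linarith [hT.anti a b d]
    have ty : 0 < T y z x := by rwa [← hT.cyc]
    have tz : 0 < T z x y := by rwa [← c2 hT]
    have j1 := key x y z t mem
    have j2 := key y z x ty (fun d hd => by have := mem d hd; tauto)
    have j3 := key z x y tz (fun d hd => by have := mem d hd; tauto)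
    have k1 : ∀ p, ¬ 0 < T x p y := fun p => by rw [← hT.cyc]; exact j1 p
    have k2 : ∀ p, ¬ 0 < T y p z := fun p => by rw [← hT.cyc]; exact j2 p
    have k3 : ∀ p, ¬ 0 < T z p x := fun p => by rw [← hT.cyc]; exact j3 p
    by_contra k
    obtain ⟨q1, q2, q3, q4⟩ := hX
    exact LC hS hT H x y z p q r w t (k1 _) (k2 _) (j3 _) (k1 _) (k2 _) (j3 _) (k1 _) (k2 _) (j3 _)
      (k1 _) (k2 _) (j3 _) q1 (by rwa [← hT.cyc]) (by rwa [← c2 hT]) (by rwa [← c2 hT]) k
      (coreC1 hS hT H x y z t k1 k2 j3) (coreC1 hS hT H y z x ty k2 k3 j1) (coreC1 hS hT H z x y tz k3 k1 j2)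
end

def dd (p q r : ℝ × ℝ) : ℝ := (q.1 - p.1) * (r.2 - p.2) - (q.2 - p.2) * (r.1 - p.1)
def DP {n : ℕ} (P : Fin n → ℝ × ℝ) (a b c : Fin n) : ℝ := dd (P a) (P b) (P c)
variable {n : ℕ} {P : Fin n → ℝ × ℝ}

theorem ndP (h : GenPos P) (a b c : Fin n) (h1 : a ≠ b) (h2 : a ≠ c) (h3 : b ≠ c) : DP P a b c ≠ 0 := by
  intro z
  refine h.2 a b c h1 h2 h3 ((collinear_iff_of_mem (p₀ := P a) (by simp)).2 ⟨P b - P a, ?_⟩)
  unfold DP dd at z
  rintro p (rfl | rfl | rfl)
  · exact ⟨0, by simp⟩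
  · exact ⟨1, by simp⟩
  · by_cases k : (P b).1 - (P a).1 = 0
    · have k2 : (P b).2 - (P a).2 ≠ 0 := fun k2 =>
        h1 (h.1 (Prod.ext (by linarith) (by linarith)))
      refine ⟨((P c).2 - (P a).2) / ((P b).2 - (P a).2), Prod.ext ?_ ?_⟩ <;>
        simp only [vadd_eq_add, Prod.fst_add, Prod.snd_add, Prod.smul_fst, Prod.smul_snd, Prod.fst_sub,
          Prod.snd_sub, smul_eq_mul] <;> field_simp <;> linarith
    · refine ⟨((P c).1 - (P a).1) / ((P b).1 - (P a).1), Prod.ext ?_ ?_⟩ <;>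
        simp only [vadd_eq_add, Prod.fst_add, Prod.snd_add, Prod.smul_fst, Prod.smul_snd, Prod.fst_sub,
          Prod.snd_sub, smul_eq_mul] <;> field_simp <;> linarith

theorem chiP (nd : ∀ a b c, a ≠ b → a ≠ c → b ≠ c → DP P a b c ≠ 0) : Chi (DP P) := by
  refine ⟨fun _ _ _ => by unfold DP dd; ring, fun _ _ _ => by unfold DP dd; ring,
    fun _ _ _ _ => by unfold DP dd; ring, fun _ _ _ _ _ => by unfold DP dd; ring, nd, fun p q r h => ?_⟩
  haveI : Nonempty (Fin n) := ⟨p⟩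
  obtain ⟨d, hd⟩ := Finite.exists_max (fun d => DP P p q d)
  refine ⟨d, fun x y z ⟨u1, u2, u3⟩ => ?_, lt_of_lt_of_le h (hd r)⟩
  have e0 : DP P y z d * (DP P p q d - DP P p q x) + DP P z x d * (DP P p q d - DP P p q y)
      + DP P x y d * (DP P p q d - DP P p q z) = 0 := by unfold DP dd; ring
  have m1 := mul_nonneg u2.le (sub_nonneg.2 (hd x))
  have m2 := mul_nonneg u3.le (sub_nonneg.2 (hd y))
  have m3 := mul_nonneg u1.le (sub_nonneg.2 (hd z))
  have z1 : DP P p q d - DP P p q x = 0 := (mul_eq_zero.1 (by linarith)).resolve_left u2.ne'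
  have z2 : DP P p q d - DP P p q y = 0 := (mul_eq_zero.1 (by linarith)).resolve_left u3.ne'
  have z3 : DP P p q d - DP P p q z = 0 := (mul_eq_zero.1 (by linarith)).resolve_left u1.ne'
  have e1 : DP P p q r * (DP P x y d + DP P y z d + DP P z x d) =
      DP P p r p * 0 + (((P y).1 - (P x).1) * ((P r).2 - (P p).2) - ((P y).2 - (P x).2) * ((P r).1 - (P p).1))
        * (DP P p q z - DP P p q x)
      - (((P z).1 - (P x).1) * ((P r).2 - (P p).2) - ((P z).2 - (P x).2) * ((P r).1 - (P p).1))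
        * (DP P p q y - DP P p q x) := by unfold DP dd; ring
  rw [show DP P p q z - DP P p q x = 0 by linarith, show DP P p q y - DP P p q x = 0 by linarith] at e1
  have := mul_pos h (show 0 < DP P x y d + DP P y z d + DP P z x d by linarith)
  linarith

theorem opp {s t u v : ℝ} (hs : 0 ≤ s) (ht : 0 ≤ t) (e : s + t = 1) (h : s * u + t * v = 0) (hu : u ≠ 0)
    (hv : v ≠ 0) : (0 < u ∧ v < 0) ∨ (u < 0 ∧ 0 < v) := by
  rcases lt_or_gt_of_ne hu with a | a <;> rcases lt_or_gt_of_ne hv with b | b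
  · exfalso; nlinarith [mul_nonneg hs (neg_pos.2 a).le, mul_nonneg ht (neg_pos.2 b).le, mul_pos (neg_pos.2 a) (neg_pos.2 b)]
  · exact Or.inr ⟨a, b⟩
  · exact Or.inl ⟨a, b⟩
  · exfalso; nlinarith [mul_nonneg hs a.le, mul_nonneg ht b.le, mul_pos a b]

theorem xseg {a b c d : Fin n} (h : X (DP P) a b c d) :
    (segment ℝ (P a) (P b) ∩ segment ℝ (P c) (P d)).Nonempty := by
  obtain ⟨u1, u2, u3, u4⟩ := h
  have e : DP P d c a + DP P c d b = DP P a b c + DP P b a d := by unfold DP dd; ring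
  have p : 0 < DP P a b c + DP P b a d := by linarith
  refine ⟨_, ⟨DP P c d b / (DP P a b c + DP P b a d), DP P d c a / (DP P a b c + DP P b a d), by positivity,
    by positivity, by field_simp; linarith, rfl⟩, DP P b a d / (DP P a b c + DP P b a d),
    DP P a b c / (DP P a b c + DP P b a d), by positivity, by positivity, by field_simp; ring, ?_⟩
  refine Prod.ext ?_ ?_ <;>
    simp only [Prod.fst_add, Prod.snd_add, Prod.smul_fst, Prod.smul_snd, smul_eq_mul] <;> field_simp <;>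
    unfold DP dd <;> ring

theorem cross_iff (h : Chi (DP P)) (a b c d : Fin n) : Cross P a b c d ↔ Cr (DP P) a b c d := by
  constructor
  · rintro ⟨n1, n2, n3, n4, n5, n6, z, ⟨s, t, hs, ht, e, rfl⟩, s', t', hs', ht', e', q⟩
    have q1 := congrArg Prod.fst q
    have q2 := congrArg Prod.snd q
    simp only [Prod.fst_add, Prod.snd_add, Prod.smul_fst, Prod.smul_snd, smul_eq_mul] at q1 q2
    obtain rfl : s = 1 - t := by linarith
    obtain rfl : s' = 1 - t' := by linarith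
    have w1 : (1 - t') * DP P a b c + t' * DP P a b d = 0 := by
      unfold DP dd; linear_combination ((P b).1 - (P a).1) * q2 - ((P b).2 - (P a).2) * q1
    have w2 : (1 - t) * DP P c d a + t * DP P c d b = 0 := by
      unfold DP dd; linear_combination (-((P d).1 - (P c).1)) * q2 + ((P d).2 - (P c).2) * q1
    have i1 := h.anti a b d
    have i2 := h.anti a b c
    have i3 := h.anti c d a
    have i4 := h.anti c d b
    have i5 : DP P d c a + DP P c d b = DP P a b c + DP P b a d := by unfold DP dd; ring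
    rcases opp hs' ht' e' w1 (h.nd _ _ _ n1 n2 n4) (h.nd _ _ _ n1 n3 n5) with ⟨u1, u2⟩ | ⟨u1, u2⟩ <;>
      rcases opp hs ht e w2 (h.nd _ _ _ n6 n2.symm n3.symm) (h.nd _ _ _ n6 n4.symm n5.symm) with ⟨u3, u4⟩ | ⟨u3, u4⟩
    · exfalso; linarith
    · exact Or.inl ⟨u1, by linarith, by linarith, u4⟩
    · exact Or.inr ⟨u2, by linarith, u3, by linarith⟩
    · exfalso; linarith
  · rintro (k | k)
    · obtain ⟨m1, m2, m3⟩ := ne3 h k.1
      obtain ⟨-, m4, m5⟩ := ne3 h k.2.1
      exact ⟨m1, m2, m5, m3, m4, (ne3 h k.2.2.2).1, xseg k⟩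
    · obtain ⟨m1, m2, m3⟩ := ne3 h k.1
      obtain ⟨-, m4, m5⟩ := ne3 h k.2.1
      exact ⟨m1, m5, m2, m4, m3, (ne3 h k.2.2.1).1, by rw [segment_symm ℝ (P c)]; exact xseg k⟩

theorem hull_iff (h : Chi (DP P)) (inj : Function.Injective P) (i : Fin n) :
    P i ∉ convexHull ℝ (P '' {j | j ≠ i}) ↔ Hull (DP P) i := by
  constructor
  · intro k x y z ⟨u1, u2, u3⟩
    apply k
    have cv := convex_convexHull ℝ (P '' {j | j ≠ i})
    have m : ∀ j, j ≠ i → P j ∈ convexHull ℝ (P '' {j | j ≠ i}) := fun j hj =>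
      subset_convexHull ℝ _ ⟨j, hj, rfl⟩
    have p : 0 < DP P z x i + DP P x y i := by linarith
    have p' : 0 < DP P y z i + (DP P z x i + DP P x y i) := by linarith
    have c1 := cv (m y (ne3 h u2).2.1) (m z (ne3 h u2).2.2) (a := DP P z x i / (DP P z x i + DP P x y i))
      (b := DP P x y i / (DP P z x i + DP P x y i)) (by positivity) (by positivity) (by field_simp)
    have c2 := cv (m x (ne3 h u1).2.1) c1 (a := DP P y z i / (DP P y z i + (DP P z x i + DP P x y i)))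
      (b := (DP P z x i + DP P x y i) / (DP P y z i + (DP P z x i + DP P x y i))) (by positivity)
      (by positivity) (by field_simp)
    convert c2 using 1
    refine Prod.ext ?_ ?_ <;>
      simp only [Prod.fst_add, Prod.snd_add, Prod.smul_fst, Prod.smul_snd, smul_eq_mul] <;> field_simp <;>
      unfold DP dd <;> ring
  · intro k hm
    have tr : ∀ a b c, 0 < DP P i a b → 0 < DP P i b c → 0 < DP P i a c := fun a b c u v => by
      by_contra w
      have n1 := (ne3 h u).1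
      have n2 := (ne3 h v).2.1
      have n3 : a ≠ c := by
        rintro rfl
        linarith [h.anti a i b, h.cyc i b a, h.cyc b a i, h.anti b a i, h.cyc i a b]
      have := flip h ⟨n1, n2, n3⟩ w
      exact k a b c ⟨by rwa [← h.cyc], by rwa [← h.cyc], by rwa [← c2 h]⟩
    have ir : ∀ a, ¬ 0 < DP P i a a := fun a u => (ne3 h u).2.2 rfl
    have ne : ({j | j ≠ i} : Set (Fin n)).Nonempty := by
      by_contra e
      rw [Set.not_nonempty_iff_eq_empty.1 e] at hm
      simp at hm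
    have wf1 : WellFounded (fun a b => 0 < DP P i a b) :=
      @Finite.wellFounded_of_trans_of_irrefl _ _ _ ⟨tr⟩ ⟨ir⟩
    have wf2 : WellFounded (fun a b => 0 < DP P i b a) :=
      @Finite.wellFounded_of_trans_of_irrefl _ _ _ ⟨fun a b c u v => tr c b a v u⟩ ⟨ir⟩
    obtain ⟨j0, h0, m0⟩ := wf1.has_min _ ne
    obtain ⟨j1, h1, m1⟩ := wf2.has_min _ ne
    have sw : ∀ a b, a ≠ i → b ≠ i → a ≠ b → ¬ 0 < DP P i a b → 0 < DP P i b a := fun a b n1 n2 n3 w => by
      have := flip h ⟨n1.symm, n2.symm, n3⟩ w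
      rwa [← h.cyc]
    have g0 : ∀ j, j ≠ i → j ≠ j0 → 0 < DP P i j0 j := fun j a b => sw j j0 a h0 b (m0 j a)
    have g1 : ∀ j, j ≠ i → j ≠ j1 → 0 < DP P i j j1 := fun j a b => sw j1 j h1 a b.symm (m1 j a)
    by_cases e : j0 = j1
    · subst e
      have : P '' {j | j ≠ i} ⊆ {P j0} := by
        rintro _ ⟨j, hj, rfl⟩
        by_cases e : j = j0
        · rw [e]; rfl
        · exact absurd (tr _ _ _ (g0 j hj e) (g1 j hj e)) (ir _)
      exact h0 (inj (convexHull_min this (convex_singleton _) hm)).symm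
    · have : P '' {j | j ≠ i} ⊆ {z | 0 < dd (P i) (P j0) z + dd (P i) z (P j1)} := by
        rintro _ ⟨j, hj, rfl⟩
        change 0 < DP P i j0 j + DP P i j j1
        have z0 : ∀ a, DP P i a a = 0 := fun a => by unfold DP dd; ring
        by_cases e0 : j = j0
        · rw [e0, z0]; linarith [g1 j0 h0 e]
        · by_cases e1 : j = j1
          · rw [e1, z0]; linarith [g1 j0 h0 e]
          · linarith [g0 j hj e0, g1 j hj e1]
      have cv : Convex ℝ {z | 0 < dd (P i) (P j0) z + dd (P i) z (P j1)} := by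
        intro p hp q hq a b ha hb hab
        simp only [Set.mem_setOf_eq] at hp hq ⊢
        obtain rfl : a = 1 - b := by linarith
        have : dd (P i) (P j0) ((1 - b) • p + b • q) + dd (P i) ((1 - b) • p + b • q) (P j1) =
            (1 - b) * (dd (P i) (P j0) p + dd (P i) p (P j1)) + b * (dd (P i) (P j0) q + dd (P i) q (P j1)) := by
          simp only [dd, Prod.fst_add, Prod.snd_add, Prod.smul_fst, Prod.smul_snd, smul_eq_mul]; ring
        rw [this]
        rcases eq_or_lt_of_le hb with rfl | hb'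
        · simpa using hp
        · exact add_pos_of_nonneg_of_pos (mul_nonneg ha hp.le) (mul_pos hb' hq)
      have := convexHull_min this cv hm
      simp [dd] at this

theorem result (n : ℕ) (P Q : Fin n → ℝ × ℝ) (hP : GenPos P) (hQ : GenPos Q)
    (hle : GLe P Q) (hne : ¬ GIso P Q) : hullNum P < hullNum Q := by
  obtain ⟨f, fi, hf⟩ := hle
  have fb : Function.Bijective f := Finite.injective_iff_bijective.1 fi
  by_contra hc
  have cP := chiP (ndP hP)
  have cQ := chiP (ndP hQ)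
  have cT : Chi (DP (Q ∘ f)) := chiP fun a b c n1 n2 n3 => ndP hQ _ _ _ (fi.ne n1) (fi.ne n2) (fi.ne n3)
  have e' : ∀ a b c, DP (Prod.swap ∘ Q ∘ f) a b c = DP (Q ∘ f) b a c := fun a b c => by
    simp only [DP, dd, Function.comp, Prod.fst_swap, Prod.snd_swap]; ring
  have cT' : Chi (DP (Prod.swap ∘ Q ∘ f)) := chiP fun a b c n1 n2 n3 => by
    rw [e']; exact cT.nd _ _ _ n1.symm n3 n2
  have H : HH (DP P) (DP (Q ∘ f)) := fun a b c d h =>
    (cross_iff cQ _ _ _ _).1 (hf _ _ _ _ ((cross_iff cP _ _ _ _).2 (Or.inl h)))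
  have e1 : hullNum P = {v | Hull (DP P) v}.ncard := by
    unfold hullNum; congr 1; ext i; exact hull_iff cP hP.1 i
  have e2 : hullNum Q = {v | Hull (DP (Q ∘ f)) v}.ncard := by
    unfold hullNum
    rw [← Set.ncard_image_of_injective {v | Hull (DP (Q ∘ f)) v} fi]
    congr 1; ext i
    obtain ⟨j, rfl⟩ := fb.2 i
    rw [fi.mem_set_image]
    refine (hull_iff cQ hQ.1 _).trans ⟨fun h x y z => h (f x) (f y) (f z), fun h x y z => ?_⟩
    obtain ⟨x, rfl⟩ := fb.2 x
    obtain ⟨y, rfl⟩ := fb.2 y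
    obtain ⟨z, rfl⟩ := fb.2 z
    exact h x y z
  have K := core cP cT cT' e' H (by omega)
  refine hne ⟨f, fb, fun x y u v => ⟨hf x y u v, fun h => (cross_iff cP _ _ _ _).2 ?_⟩⟩
  rcases (cross_iff cQ _ _ _ _).1 h with k | k
  · exact K x y u v k
  · exact (K x y v u k).symm

end Pool.Agent.Results.MP_1038e0_co.Hull
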